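import Pool.Agent.J4H3.EQ.Stm
import Pool.Agent.J4H3.NG.Loc

/-!
# Project EQ, piece CAV: the circle averages of the potential
-/

set_option autoImplicit false

namespace Pool.Agent.J4H3.EQ

open Complex MeasureTheory Filter Topology Set
open Pool.Agent.J4H4.NG (gam ell)
open Pool.Agent.H401R2 (sA)
open Pool.Agent.J4H3.NG

/-- the ratio of the Gamma factors, with a small relative error -/
lemma ratio_close : ∃ K : ℝ, 0 ≤ K ∧ ∀ v u : ℝ, 4 ≤ v → u ^ 2 ≤ v → ∃ Θ : ℂ,
    gam (2 + I * ((v + u : ℝ) : ℂ)) / gam (2 + I * (v : ℂ)) = cexp (I * u * ell v) * Θ ∧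
    ‖Θ - 1‖ ≤ K * ((1 + |u|) ^ 2 / v) := by
  obtain ⟨K, hK⟩ : ∃ K : ℝ, K = ((1 * (1 + 4 * 1) + 1) * (1 + 4 * (8 * (1 + 4 * (3 * Real.exp 12)) + 3 * Real.exp 12)) +
      (8 * (1 + 4 * (3 * Real.exp 12)) + 3 * Real.exp 12)) := ⟨_, rfl⟩
  have hexp : 0 < Real.exp 12 := Real.exp_pos _
  have hK0 : 0 ≤ K := by rw [hK]; positivity
  refine ⟨K, hK0, fun v u hv hsm => ?_⟩
  have hv0 : 0 < v := by linarith
  have hau := abs_nonneg u
  have hu : |u| ≤ v / 2 := by
    have h1 : |u| ^ 2 ≤ (v / 2) ^ 2 := by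
      rw [sq_abs]
      nlinarith
    exact le_of_sq_le_sq h1 (by linarith)
  refine ⟨_, gam_ratio hv hu, ?_⟩
  obtain ⟨X, hX⟩ : ∃ X : ℝ, X = (1 + |u|) ^ 2 / v := ⟨_, rfl⟩
  have hX0 : 0 ≤ X := by rw [hX]; positivity
  have hX4 : X ≤ 4 := by
    rw [hX, div_le_iff₀ hv0]
    have : |u| ^ 2 = u ^ 2 := sq_abs u
    nlinarith [sq_nonneg (1 - |u|)]
  have hlin : ∀ w : ℂ, v ≤ ‖w‖ → ‖(1 + I * (u : ℂ) / w) - 1‖ ≤ 1 * X := by
    intro w hw
    have e : (1 + I * (u : ℂ) / w) - 1 = I * u / w := by ring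
    rw [e, norm_div, norm_mul, norm_I, one_mul, norm_real, Real.norm_eq_abs, one_mul, hX]
    apply div_le_div₀ (by positivity) (by nlinarith) hv0 hw
  have n2 : v ≤ ‖(2 : ℂ) + I * v‖ := by
    refine le_trans (le_of_eq ?_) (abs_im_le_norm _)
    simp [abs_of_pos hv0]
  have n1 : v ≤ ‖(1 : ℂ) + I * v‖ := by
    refine le_trans (le_of_eq ?_) (abs_im_le_norm _)
    simp [abs_of_pos hv0]
  have q1 := mul_close hX0 hX4 zero_le_one zero_le_one (hlin _ n2) (hlin _ n1)
  have hS : ‖sA (1 + I * (((v + u) / 2 : ℝ) : ℂ)) / sA (1 + I * ((v / 2 : ℝ) : ℂ)) - 1‖ ≤ 8 * X := by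
    have hu1 := neg_abs_le u
    refine (sA_ratio hv (by simp) (by simp) ?_ ?_).trans ?_
    · simp
      linarith
    · simp
      linarith
    · rw [hX]
      have : 8 * ((1 + |u|) ^ 2 / v) = 8 * (1 + |u|) ^ 2 / v := by ring
      rw [this]
      apply div_le_div_of_nonneg_right _ hv0.le
      nlinarith
  have hE := exp_close hX4 (e := ((((1 + I * (((v + u) / 2 : ℝ) : ℂ)) - 1 / 2) * log (1 + I * (((v + u) / 2 : ℝ) : ℂ)) -
    (1 + I * (((v + u) / 2 : ℝ) : ℂ))) -
    (((1 + I * ((v / 2 : ℝ) : ℂ)) - 1 / 2) * log (1 + I * ((v / 2 : ℝ) : ℂ)) - (1 + I * ((v / 2 : ℝ) : ℂ)))) -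
    I * (u / 2) * log (I * ((v / 2 : ℝ) : ℂ))) (by
      refine (h_close hv hu).trans (le_of_eq ?_)
      rw [hX]
      ring)
  have q2 := mul_close hX0 hX4 (by norm_num) (by positivity) hS hE
  have q3 := mul_close hX0 hX4 (by norm_num) (by positivity) q1 q2
  rw [← hK, hX] at q3
  exact q3

lemma log_norm_close {Θ : ℂ} (h : ‖Θ - 1‖ ≤ 1 / 2) : |Real.log ‖Θ‖| ≤ 2 * ‖Θ - 1‖ := by
  have h1 : ‖Θ‖ ≤ 1 + ‖Θ - 1‖ := by
    have := norm_add_le (Θ - 1) 1
    rw [norm_one] at this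
    have e : Θ - 1 + 1 = Θ := by ring
    rw [e] at this
    linarith
  have h2 : 1 - ‖Θ - 1‖ ≤ ‖Θ‖ := by
    have := norm_sub_le Θ (Θ - 1)
    have e : Θ - (Θ - 1) = 1 := by ring
    rw [e, norm_one] at this
    linarith
  have h3 : 0 < ‖Θ‖ := by linarith
  rw [abs_le]
  constructor
  · have h4 := Real.one_sub_inv_le_log_of_pos h3
    have h5 : (‖Θ‖)⁻¹ ≤ 1 + 2 * ‖Θ - 1‖ := by
      rw [inv_le_iff_one_le_mul₀ h3]
      have hx := norm_nonneg (Θ - 1)
      nlinarith
    linarith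
  · have h4 := Real.log_le_sub_one_of_pos h3
    have hx := norm_nonneg (Θ - 1)
    linarith

/-- `log |gam|` is nearly linear on the line `Re s = 2` -/
lemma log_gam : ∃ K : ℝ, 0 ≤ K ∧ ∀ v u : ℝ, 4 ≤ v → u ^ 2 ≤ v → K * ((1 + |u|) ^ 2 / v) ≤ 1 →
    |Real.log ‖gam (2 + I * ((v + u : ℝ) : ℂ))‖ - (Real.log ‖gam (2 + I * (v : ℂ))‖ - Real.pi / 4 * u)| ≤ 1 := by
  obtain ⟨K, hK, h⟩ := ratio_close
  refine ⟨2 * K, by linarith, fun v u hv hu hs => ?_⟩
  obtain ⟨Θ, h1, h2⟩ := h v u hv hu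
  have h3 : ‖Θ - 1‖ ≤ 1 / 2 := by linarith
  have h4 := log_norm_close h3
  have hg := gam_ne v
  have hg' := gam_ne (v + u)
  have hΘ : Θ ≠ 0 := by
    intro h0
    rw [h0] at h3
    norm_num at h3
  have h5 : Real.log ‖gam (2 + I * ((v + u : ℝ) : ℂ))‖ - Real.log ‖gam (2 + I * (v : ℂ))‖ = -(Real.pi / 4 * u) + Real.log ‖Θ‖ := by
    rw [← Real.log_div (norm_ne_zero_iff.2 hg') (norm_ne_zero_iff.2 hg), ← norm_div, h1, norm_mul, norm_exp,
      Real.log_mul (Real.exp_pos _).ne' (norm_ne_zero_iff.2 hΘ), Real.log_exp]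
    congr 1
    unfold ell
    simp
    ring
  have e : Real.log ‖gam (2 + I * ((v + u : ℝ) : ℂ))‖ - (Real.log ‖gam (2 + I * (v : ℂ))‖ - Real.pi / 4 * u) = Real.log ‖Θ‖ := by
    linarith
  rw [e]
  linarith

lemma pot_cont (a : ℝ) : Continuous (pot a) := by
  unfold pot
  refine Continuous.add (by fun_prop) ?_
  have hc : Continuous fun w : ℂ => (2 + I * (w.im : ℂ)) := by fun_prop
  have h1 : (fun w : ℂ => Real.log ‖gam (2 + I * (w.im : ℂ))‖) =
      fun w : ℂ => -Real.log ‖(((2 + I * (w.im : ℂ)) * ((2 + I * (w.im : ℂ)) - 1) / 2))⁻¹ * (Gammaℝ (2 + I * (w.im : ℂ)))⁻¹‖ := by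
    funext w
    rw [← mul_inv, norm_inv, Real.log_inv, neg_neg]
    rfl
  rw [h1]
  refine Continuous.neg (Continuous.log (Continuous.norm (Continuous.mul (Continuous.inv₀ (by fun_prop) ?_) ?_)) ?_)
  · intro w
    have h2 : (2 + I * (w.im : ℂ)) ≠ 0 := by
      intro h
      have := congrArg Complex.re h
      simp at this
    have h3 : (2 + I * (w.im : ℂ)) - 1 ≠ 0 := by
      intro h
      have := congrArg Complex.re h
      simp at this
      norm_num at this
    exact div_ne_zero (mul_ne_zero h2 h3) two_ne_zero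
  · exact differentiable_Gammaℝ_inv.continuous.comp hc
  · intro w
    have h2 : (2 + I * (w.im : ℂ)) ≠ 0 := by
      intro h
      have := congrArg Complex.re h
      simp at this
    have h3 : (2 + I * (w.im : ℂ)) - 1 ≠ 0 := by
      intro h
      have := congrArg Complex.re h
      simp at this
      norm_num at this
    have h4 : Gammaℝ (2 + I * (w.im : ℂ)) ≠ 0 := Gammaℝ_ne_zero_of_re_pos (by simp)
    exact norm_ne_zero_iff.2 (mul_ne_zero (inv_ne_zero (div_ne_zero (mul_ne_zero h2 h3) two_ne_zero)) (inv_ne_zero h4))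

/-- the circle average of the quadratic model -/
lemma model_avg {a : ℝ} (ha : a ≠ 0) (G : ℝ) (c : ℂ) (s : ℝ) :
    Real.circleAverage (fun w : ℂ => w.re ^ 2 / (4 * a) + (G - Real.pi / 4 * (w.im - c.im))) c s =
      c.re ^ 2 / (4 * a) + G + s ^ 2 / (8 * a) := by
  unfold Real.circleAverage
  have e : ∀ θ : ℝ, (fun w : ℂ => w.re ^ 2 / (4 * a) + (G - Real.pi / 4 * (w.im - c.im))) (circleMap c s θ) =
      (c.re ^ 2 / (4 * a) + G) + (c.re * s / (2 * a)) * Real.cos θ + (s ^ 2 / (4 * a)) * Real.cos θ ^ 2 -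
        (Real.pi / 4 * s) * Real.sin θ := by
    intro θ
    have e1 : (circleMap c s θ).re = c.re + s * Real.cos θ := by
      simp [circleMap, exp_ofReal_mul_I_re, exp_ofReal_mul_I_im]
    have e2 : (circleMap c s θ).im = c.im + s * Real.sin θ := by
      simp [circleMap, exp_ofReal_mul_I_re, exp_ofReal_mul_I_im]
    simp only [e1, e2]
    field_simp
    ring
  simp only [e]
  have i1 : IntervalIntegrable (fun θ : ℝ => (c.re ^ 2 / (4 * a) + G)) volume 0 (2 * Real.pi) := by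
    apply Continuous.intervalIntegrable; fun_prop
  have i2 : IntervalIntegrable (fun θ : ℝ => (c.re * s / (2 * a)) * Real.cos θ) volume 0 (2 * Real.pi) := by
    apply Continuous.intervalIntegrable; fun_prop
  have i3 : IntervalIntegrable (fun θ : ℝ => (s ^ 2 / (4 * a)) * Real.cos θ ^ 2) volume 0 (2 * Real.pi) := by
    apply Continuous.intervalIntegrable; fun_prop
  have i4 : IntervalIntegrable (fun θ : ℝ => (Real.pi / 4 * s) * Real.sin θ) volume 0 (2 * Real.pi) := by
    apply Continuous.intervalIntegrable; fun_prop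
  rw [intervalIntegral.integral_sub ((i1.add i2).add i3) i4, intervalIntegral.integral_add (i1.add i2) i3,
    intervalIntegral.integral_add i1 i2, intervalIntegral.integral_const, intervalIntegral.integral_const_mul,
    intervalIntegral.integral_const_mul, intervalIntegral.integral_const_mul, integral_cos, integral_sin, integral_cos_sq]
  simp only [Real.sin_two_pi, Real.sin_zero, Real.cos_two_pi, Real.cos_zero, smul_eq_mul]
  have := Real.pi_ne_zero
  field_simp
  ring

theorem t_CAV : S_CAV := by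
  refine ⟨pot_cont, fun a K ha hK => ?_⟩
  obtain ⟨K', hK', h⟩ := log_gam
  -- for large T
  have hlog : Tendsto (fun T : ℝ => (1 + K * Real.log T) ^ 2 / T) atTop (𝓝 0) := by
    have h1 : Tendsto (fun T : ℝ => Real.log T ^ 2 / T) atTop (𝓝 0) := by
      have := Real.isLittleO_pow_log_id_atTop (n := 2)
      exact this.tendsto_div_nhds_zero
    have h2 : Tendsto (fun T : ℝ => Real.log T / T) atTop (𝓝 0) := by
      have := Real.isLittleO_log_id_atTop
      exact this.tendsto_div_nhds_zero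
    have h3 : Tendsto (fun T : ℝ => 1 / T) atTop (𝓝 0) := tendsto_const_nhds.div_atTop tendsto_id
    have h4 := (h3.add (h2.const_mul (2 * K))).add (h1.const_mul (K ^ 2))
    simp only [mul_zero, add_zero] at h4
    refine h4.congr fun T => ?_
    ring
  have ev1 : ∀ᶠ T : ℝ in atTop, (1 + K * Real.log T) ^ 2 / T ≤ 1 / (2 * (K' + 2)) :=
    (hlog.eventually_lt_const (by positivity)).mono fun T hT => hT.le
  obtain ⟨T₀, hT₀⟩ := eventually_atTop.1 (ev1.and (eventually_ge_atTop 8))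
  refine ⟨max T₀ 8, by have := le_max_right T₀ 8; linarith, fun T hT c s hc hs hsT => ?_⟩
  obtain ⟨h1, h2⟩ := hT₀ T ((le_max_left _ _).trans hT)
  have hTpos : 0 < T := by linarith
  set G : ℝ := Real.log ‖gam (2 + I * (c.im : ℂ))‖ with hG
  have hmod := model_avg ha.ne' G c s
  have hclose : ∀ w ∈ Metric.sphere c |s|, |pot a w - (w.re ^ 2 / (4 * a) + (G - Real.pi / 4 * (w.im - c.im)))| ≤ 1 := by
    intro w hw
    rw [mem_sphere_iff_norm, abs_of_pos hs] at hw
    set u : ℝ := w.im - c.im with hu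
    have hus : |u| ≤ s := by
      rw [← hw, hu, ← sub_im]
      exact abs_im_le_norm _
    have hX : (1 + |u|) ^ 2 / c.im ≤ 1 / (K' + 2) := by
      have a1 : (1 + |u|) ^ 2 ≤ (1 + K * Real.log T) ^ 2 := by
        apply pow_le_pow_left₀ (by positivity)
        linarith
      have a2 : (1 + K * Real.log T) ^ 2 ≤ T / (2 * (K' + 2)) := by
        rw [div_le_iff₀ hTpos] at h1
        calc _ ≤ 1 / (2 * (K' + 2)) * T := h1
          _ = _ := by ring
      rw [div_le_iff₀ (by linarith)]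
      calc (1 + |u|) ^ 2 ≤ T / (2 * (K' + 2)) := a1.trans a2
        _ = 1 / (K' + 2) * (T / 2) := by
          have : K' + 2 ≠ 0 := by linarith
          field_simp
        _ ≤ 1 / (K' + 2) * c.im := mul_le_mul_of_nonneg_left hc (by positivity)
    have hu2 : u ^ 2 ≤ c.im := by
      have b1 : (1 + |u|) ^ 2 ≤ 1 / (K' + 2) * c.im := by
        rwa [div_le_iff₀ (by linarith)] at hX
      have b2 : 1 / (K' + 2) ≤ 1 := by
        rw [div_le_one (by linarith)]
        linarith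
      have b3 : 1 / (K' + 2) * c.im ≤ c.im := by nlinarith
      have b4 : |u| ^ 2 = u ^ 2 := sq_abs u
      nlinarith [abs_nonneg u]
    have hKX : K' * ((1 + |u|) ^ 2 / c.im) ≤ 1 := by
      calc _ ≤ K' * (1 / (K' + 2)) := mul_le_mul_of_nonneg_left hX hK'
        _ = K' / (K' + 2) := by ring
        _ ≤ 1 := by rw [div_le_one (by linarith)]; linarith
    have h3 := h c.im u (by linarith) hu2 hKX
    have e1 : c.im + u = w.im := by rw [hu]; ring
    rw [e1, ← hG] at h3
    have e2 : pot a w - (w.re ^ 2 / (4 * a) + (G - Real.pi / 4 * u)) =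
        Real.log ‖gam (2 + I * (w.im : ℂ))‖ - (G - Real.pi / 4 * u) := by
      unfold pot
      ring
    rw [e2]
    exact h3
  have hcont : Continuous (fun w : ℂ => w.re ^ 2 / (4 * a) + (G - Real.pi / 4 * (w.im - c.im))) := by fun_prop
  have ci1 : CircleIntegrable (pot a) c s := (pot_cont a).continuousOn.circleIntegrable'
  have ci2 : CircleIntegrable (fun w : ℂ => w.re ^ 2 / (4 * a) + (G - Real.pi / 4 * (w.im - c.im))) c s :=
    hcont.continuousOn.circleIntegrable'
  have hsub := Real.circleAverage_sub ci1 ci2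
  have hbd : |Real.circleAverage (fun w => pot a w - (w.re ^ 2 / (4 * a) + (G - Real.pi / 4 * (w.im - c.im)))) c s| ≤ 1 := by
    rw [abs_le]
    have hci : CircleIntegrable (fun w => pot a w - (w.re ^ 2 / (4 * a) + (G - Real.pi / 4 * (w.im - c.im)))) c s :=
      ci1.sub ci2
    constructor
    · have := Real.circleAverage_mono (c := c) (R := s) (f₁ := fun _ => (-1 : ℝ)) (circleIntegrable_const _ _ _) hci (fun w hw => (abs_le.1 (hclose w hw)).1)
      rwa [Real.circleAverage_const] at this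
    · have := Real.circleAverage_mono (c := c) (R := s) (f₂ := fun _ => (1 : ℝ)) hci (circleIntegrable_const _ _ _) (fun w hw => (abs_le.1 (hclose w hw)).2)
      rwa [Real.circleAverage_const] at this
  have e3 : (fun w => pot a w - (w.re ^ 2 / (4 * a) + (G - Real.pi / 4 * (w.im - c.im)))) =
      pot a - (fun w : ℂ => w.re ^ 2 / (4 * a) + (G - Real.pi / 4 * (w.im - c.im))) := rfl
  rw [e3, hsub, hmod] at hbd
  have e4 : pot a c + s ^ 2 / (8 * a) = c.re ^ 2 / (4 * a) + G + s ^ 2 / (8 * a) := by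
    unfold pot
    rw [← hG]
  rw [e4]
  exact hbd

end Pool.Agent.J4H3.EQ
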