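import Pool.Agent.J4H3.EQ.Ng
import Pool.Agent.J4H3.EQ.Cav
import Pool.Agent.J4H4.EQ.Cnt
import Pool.Agent.J4H4.EQ.Avg
import Pool.Agent.J4H4.EQ.Mass
import Pool.Agent.J4H75.EQ.Upp
import Pool.Agent.J4H75.EQ.Farm
import Pool.Agent.J4H6.EQ.Gpt
import Pool.Agent.J4H6.EQ.Law
import Pool.Agent.J4H79.EQ.Sq
import Pool.Agent.J4H87.EQ.Low
import Pool.Agent.J4H68.EQ.Lowh
import Pool.Agent.J4H49.EQ.Uph
import Pool.Agent.J4H49.EQ.Cir
import Pool.Agent.J4H8.EQ.Tau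

/-!
# Project EQ: the law of the zeros of `H_t` for `t < 0`, assembly
-/

set_option autoImplicit false

namespace Pool.Agent.J4H3.EQ

/-- **The law of the zeros of `H_t` for every `t < 0`** -/
theorem law : S_LAW := by
  have JN : S_JN := J4H4.EQ.t_JN
  have CNT : S_CNT := J4H4.EQ.t_CNT JN J4H4.EQ.t_KER
  have AVG : S_AVG := J4H4.EQ.t_AVG JN
  have CAV : S_CAV := t_CAV
  have UPP : S_UPP := J4H75.EQ.t_UPP n_UPB
  have GPT : S_GPT := J4H6.EQ.t_GPT n_GOOD n_REPR n_REP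
  have FARM : S_FARM := J4H75.EQ.t_FARM n_FAR UPP CAV AVG n_REP
  have SQ : S_SQ := J4H79.EQ.t_SQ UPP CAV AVG n_REP
  have MASS : S_MASS := J4H4.EQ.t_MASS GPT SQ FARM
  have LOW : S_LOW := J4H87.EQ.t_LOW CNT CAV UPP MASS n_FAR n_REP
  have LOWH : S_LOWH := J4H68.EQ.t_LOWH LOW n_REP
  have CIR : S_CIR := J4H49.EQ.t_CIR J4H49.EQ.t_UPH
  have TAU : S_TAU := J4H8.EQ.t_TAU JN CIR LOWH n_GRO
  exact J4H6.EQ.t_LAW LOWH TAU n_GRO

end Pool.Agent.J4H3.EQ
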