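import Pool.Agent.J4H4.NG.Stm

/-!
# Project EQ: the law of the zeros of `H_t` for negative times, statements

TARGET (`S_LAW`): for every `b > 0` the number of zeros of `H_{-b}` in `|z| ≤ R` is `(R / 2π) log R (1 + o(1))`, and their imaginary parts,
divided by `log R`, are uniformly distributed on `[-b/2, b/2]`.

`f = EE a`, `a = b / 4`. `u(w) = pot a w + A log T` is an upper bound for `log |f|` (`S_UPP`), with almost equality at the good points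
(`S_GPT`). `D = u - log |f| ≥ 0`. Jensen at `c`: `mean_{|w - c| = r} D + ∑ m(w) log⁺ (r / |w - c|) = (mean u - u(c)) + D(c)`,
`mean u - u(c) = r² / 8a + O(1)`. So the zeros have the density `1 / 4πa`.
-/

set_option autoImplicit false

namespace Pool.Agent.J4H3.EQ

open Complex MeasureTheory Filter Topology Set
open Pool.Agent.J4H4.NG (EE gam ell S_LOC S_REPR S_UPB S_FAR S_GOOD S_REP S_UPT S_GRO)
open Pool.Agent.J4H2.DN (Hd)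

noncomputable section

/-- a rectangle -/
def Rect (x1 x2 y1 y2 : ℝ) : Set ℂ := {w | x1 ≤ w.re ∧ w.re ≤ x2 ∧ y1 ≤ w.im ∧ w.im ≤ y2}

/-! ## Complex analysis (Mathlib only) -/

/-- (JN) Jensen's formula, from `MeromorphicOn.circleAverage_log_norm`; `S` contains the zeros in the open disc, the other points of `S`
contribute `0` (`m = 0` if `f w ≠ 0`, `log⁺ = 0` if `‖w - c‖ ≥ r`) -/
def S_JN : Prop := ∀ (f : ℂ → ℂ) (c : ℂ) (r : ℝ) (S : Finset ℂ), Differentiable ℂ f → 0 < r → f c ≠ 0 →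
  (∀ w, f w = 0 → ‖w - c‖ < r → w ∈ S) →
  Real.circleAverage (fun w => Real.log ‖f w‖) c r =
    Real.log ‖f c‖ + ∑ w ∈ S, (analyticOrderNatAt f w : ℝ) * Real.posLog (r / ‖w - c‖)

/-- (KER) `∫ log⁺ (r / |x|) dx = π r² / 2`: layer cake, `log⁺ (r / |x|) > t ↔ |x| < r e^{-t}` -/
def S_KER : Prop := ∀ (w : ℂ) (r : ℝ), 0 < r →
  ∫⁻ c : ℂ, ENNReal.ofReal (Real.posLog (r / ‖w - c‖)) ≤ ENNReal.ofReal (Real.pi * r ^ 2 / 2)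

/-- (CNT) the lower bound for the number of zeros. For `c ∈ Rect x1 x2 y1 y2`, `f c ≠ 0` (almost every `c`): by (JN)
`L ≤ mean u - u c ≤ mean D + ∑_{w ∈ S} m(w) log⁺ (r / |w - c|)`, `D = u - log |f|`. Take `ENNReal.ofReal`, integrate over the rectangle:
Tonelli (for each `θ` the shifted rectangle is in the larger one), (KER). -/
def S_CNT : Prop := ∀ (f : ℂ → ℂ) (u : ℂ → ℝ) (x1 x2 y1 y2 r L E : ℝ) (S : Finset ℂ), Differentiable ℂ f → (∃ z, f z ≠ 0) →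
  Continuous u → 0 < r → x1 ≤ x2 → y1 ≤ y2 → 0 ≤ L → 0 ≤ E →
  (∀ w ∈ Rect (x1 - r) (x2 + r) (y1 - r) (y2 + r), f w ≠ 0 → Real.log ‖f w‖ ≤ u w) →
  (∀ w ∈ Rect (x1 - r) (x2 + r) (y1 - r) (y2 + r), f w = 0 → w ∈ S) →
  (∀ c ∈ Rect x1 x2 y1 y2, u c + L ≤ Real.circleAverage u c r) →
  ∫⁻ w in Rect (x1 - r) (x2 + r) (y1 - r) (y2 + r), ENNReal.ofReal (u w - Real.log ‖f w‖) ≤ ENNReal.ofReal E →
  (x2 - x1) * (y2 - y1) * L ≤ (∑ w ∈ S, (analyticOrderNatAt f w : ℝ)) * (Real.pi * r ^ 2 / 2) + E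

/-- (AVG) the integral of `D = u - log |f|` over a disc: polar coordinates (`Complex.lintegral_comp_polarCoord_symm`, translated),
for each radius `s` the mean of `D` over the circle is at most `mean u - log |f g| ≤ B` by (JN) -/
def S_AVG : Prop := ∀ (f : ℂ → ℂ) (u : ℂ → ℝ) (g : ℂ) (R B : ℝ), Differentiable ℂ f → Continuous u → f g ≠ 0 → 0 < R → 0 ≤ B →
  (∀ w, ‖w - g‖ ≤ R → f w ≠ 0 → Real.log ‖f w‖ ≤ u w) →
  (∀ s, 0 < s → s ≤ R → Real.circleAverage u g s - Real.log ‖f g‖ ≤ B) →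
  ∫⁻ w in Metric.closedBall g R, ENNReal.ofReal (u w - Real.log ‖f w‖) ≤ ENNReal.ofReal (Real.pi * R ^ 2 * B)

/-! ## The potential -/

/-- the potential of the zeros -/
def pot (a : ℝ) (w : ℂ) : ℝ := w.re ^ 2 / (4 * a) + Real.log ‖gam (2 + I * (w.im : ℂ))‖

/-- (CAV) its circle averages: the mean of `(Re w)²` is `(Re c)² + s²/2`, and `log |gam (2 + i(v + h))| = log |gam (2 + iv)| - πh/4 + o(1)` -/
def S_CAV : Prop := (∀ a : ℝ, Continuous (pot a)) ∧ ∀ a K : ℝ, 0 < a → 0 < K → ∃ T₀ : ℝ, 2 ≤ T₀ ∧ ∀ T : ℝ, T₀ ≤ T →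
  ∀ (c : ℂ) (s : ℝ), T / 2 ≤ c.im → 0 < s → s ≤ K * Real.log T →
  |Real.circleAverage (pot a) c s - (pot a c + s ^ 2 / (8 * a))| ≤ 1

/-- (UPP) from `S_UPB`: `η = Re w - 3/2`, `η² ≤ (Re w)² + 3 K log T + 9/4` -/
def S_UPP : Prop := ∀ a K : ℝ, 0 < a → 0 < K → ∃ A T₀ : ℝ, 0 < A ∧ 2 ≤ T₀ ∧ ∀ T : ℝ, T₀ ≤ T → ∀ w : ℂ,
  |w.re| ≤ K * Real.log T → T / 2 ≤ w.im → EE a w ≠ 0 → Real.log ‖EE a w‖ ≤ pot a w + A * Real.log T

/-- (GPT) good points, from `S_GOOD`, `S_REPR`, `S_REP`. For `x > 0`: `λ = (log T) / 2 - x / 2a ∈ [μ log T, (1/2 - μ) log T]`; `v` not in the bad set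
of (GOOD): `‖DD a (λ - log b) v'‖ ≥ T^(μ-1)`, `v' = v + u`; `η = 2a (log (v'/2π)/2 - λ + log b)`, `g = 3/2 + η + iv'`, `|η - x| = O(1)`;
`‖EE a g‖ ≥ e^{η²/4a} ‖gam (2 + iv')‖ / T`. For `x < 0`: the point `-conj g` (`EE a (-conj g) = conj (EE a g)`, `pot` is the same). -/
def S_GPT : Prop := ∀ a μ κ δ : ℝ, 0 < a → 0 < μ → μ < 1 / 2 → 0 < κ → 0 < δ → ∃ A T₀ : ℝ, 0 < A ∧ 2 ≤ T₀ ∧ ∀ T : ℝ, T₀ ≤ T →
  ∀ x : ℝ, 2 * a * μ * Real.log T ≤ |x| → |x| ≤ a * (1 - 2 * μ) * Real.log T →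
  volume {v : ℝ | T ≤ v ∧ v ≤ 2 * T ∧ ∀ g : ℂ, |g.re - x| ≤ κ * Real.log T → |g.im - v| ≤ κ * Real.log T → EE a g ≠ 0 →
    Real.log ‖EE a g‖ < pot a g - A * Real.log T} ≤ ENNReal.ofReal (δ * T)

/-- (FARM) any box: (AVG) at the point of (FAR), radius `R = K log T` (`K = 4a + 4`), `B ≤ C log² T`. (`A` may be replaced by a larger number.) -/
def S_FARM : Prop := ∀ a A : ℝ, 0 < a → ∃ C T₀ : ℝ, 0 < C ∧ 2 ≤ T₀ ∧ ∀ T : ℝ, T₀ ≤ T → ∀ v : ℝ, T ≤ v → v ≤ 2 * T →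
  ∫⁻ w in Rect (-(a * Real.log T)) (a * Real.log T) v (v + Real.log T),
    ENNReal.ofReal (pot a w + A * Real.log T - Real.log ‖EE a w‖) ≤ ENNReal.ofReal (C * (Real.log T) ^ 4)

/-- (SQ) a square near a good point: (AVG) at `g`, radius `R = (9/2) κ log T`, `B = R²/8a + O(log T)` -/
def S_SQ : Prop := ∀ a κ A A' : ℝ, 0 < a → 0 < κ → κ ≤ 1 → ∃ T₀ : ℝ, 2 ≤ T₀ ∧ ∀ T : ℝ, T₀ ≤ T → ∀ (x v : ℝ) (g : ℂ),
  |x| ≤ a * Real.log T → T ≤ v → v ≤ 2 * T → |g.re - x| ≤ 2 * κ * Real.log T → |g.im - v| ≤ 2 * κ * Real.log T → EE a g ≠ 0 →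
  pot a g - A' * Real.log T ≤ Real.log ‖EE a g‖ →
  ∫⁻ w in Rect (x - κ * Real.log T) (x + κ * Real.log T) v (v + κ * Real.log T),
    ENNReal.ofReal (pot a w + A * Real.log T - Real.log ‖EE a w‖) ≤ ENNReal.ofReal (300 * κ ^ 4 / a * (Real.log T) ^ 4)

/-- (MASS) tile `[-a log T, a log T] × [T, 2T]` by the rectangles of (SQ), `x = j κ log T`, `v = T + i κ log T`. With `μ = κ / 8a` every such `x`, `|x| ≤ a log T`,
is at distance `≤ κ log T` of a level `x'` allowed in (GPT) (`κ` small). If `[v, v + κ log T]` is not contained in the bad set of (GPT)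
(with `κ`, `δ`), there is a good point: (SQ); otherwise (FARM), for at most `δT / (κ log T) + 1` intervals. In all
`≤ (2a/κ + 3) ((T/(κ log T) + 1) 300 κ⁴/a + (δT/(κ log T) + 1) C) log⁴ T`; `κ` small, then `δ` small, then `T` large. -/
def S_MASS : Prop := ∀ a A ε : ℝ, 0 < a → 0 < ε → ∃ T₀ : ℝ, 2 ≤ T₀ ∧ ∀ T : ℝ, T₀ ≤ T →
  ∫⁻ w in Rect (-(a * Real.log T)) (a * Real.log T) T (2 * T),
    ENNReal.ofReal (pot a w + A * Real.log T - Real.log ‖EE a w‖) ≤ ENNReal.ofReal (ε * T * (Real.log T) ^ 3)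

/-- (LOW) from (CNT) with `u = pot a + A log T`, `r = ρ log T`, the rectangle `[α log T + r, β log T - r] × [T + r, 2T - r]`, `L = r²/8a - 1`,
`E = ε' T log³ T`, `ε' = ε ρ²/4`, `ρ` small (`S = ∅` if `β - α` is small) -/
def S_LOW : Prop := ∀ a α β ε : ℝ, 0 < a → -a ≤ α → α ≤ β → β ≤ a → 0 < ε → ∃ T₀ : ℝ, 2 ≤ T₀ ∧ ∀ T : ℝ, T₀ ≤ T → ∃ S : Finset ℂ,
  (∀ w ∈ S, EE a w = 0 ∧ α * Real.log T ≤ w.re ∧ w.re ≤ β * Real.log T ∧ T ≤ w.im ∧ w.im ≤ 2 * T) ∧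
  ((β - α) / (4 * Real.pi * a) - ε) * T * Real.log T ≤ ∑ w ∈ S, (analyticOrderNatAt (EE a) w : ℝ)

/-! ## `H_{-b}` -/

/-- (LOWH) from (LOW), `a = b/4`, `w = iz/2` (`Im z = -2 Re w`, `Re z = 2 Im w`), blocks `T = (R-1)/4, (R-1)/8, ...` (finitely many), and the zeros
`-conj z` with `Re z < 0` -/
def S_LOWH : Prop := ∀ b α β ε : ℝ, 0 < b → -(b / 2) ≤ α → α ≤ β → β ≤ b / 2 → 0 < ε → ∃ R₀ : ℝ, 2 ≤ R₀ ∧ ∀ R : ℝ, R₀ ≤ R →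
  ∃ S : Finset ℂ, (∀ z ∈ S, Hd (-b) z = 0 ∧ ‖z‖ ≤ R ∧ α * Real.log R ≤ z.im ∧ z.im ≤ β * Real.log R) ∧
  ((β - α) / (2 * Real.pi * b) - ε) * R * Real.log R ≤ ∑ z ∈ S, (analyticOrderNatAt (Hd (-b)) z : ℝ)

/-- (UPH) `|H_{-b}(z)| ≤ H_0 (i Im z) = ξ(1/2 + |Im z|/2)/8`, and `Γ(x) ≤ x^x` for `x ≥ 1` -/
def S_UPH : Prop := ∀ b ε : ℝ, 0 < b → 0 < ε → ∃ C : ℝ, 0 ≤ C ∧ ∀ z : ℂ,
  ‖Hd (-b) z‖ ≤ Real.exp ((1 / 4 + ε) * |z.im| * Real.log (|z.im| + 2) + C)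

/-- (CIR) the mean of `|sin θ|` is `2/π` -/
def S_CIR : Prop := ∀ b ε : ℝ, 0 < b → 0 < ε → ∃ R₀ : ℝ, 2 ≤ R₀ ∧ ∀ R : ℝ, R₀ ≤ R →
  Real.circleAverage (fun z => Real.log ‖Hd (-b) z‖) 0 R ≤ (1 / (2 * Real.pi) + ε) * R * Real.log R

/-- (TAU) the upper bound for the number of all zeros, from (JN) at `0` with `R' = (1 + h) R`, (CIR), and (LOWH) with `α = -b/2`, `β = b/2`
(`n(s) ≥ (1/2π - ε) s log s`): `n(R) log (1 + h) ≤ ∑_{|z| ≤ R'} log (R'/|z|) - ∑_{|z| ≤ R} log (R/|z|)`, the second sum is `∫_0^R n(s) ds/s`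
(or a dyadic version: powers of `1 + h`). -/
def S_TAU : Prop := ∀ b ε : ℝ, 0 < b → 0 < ε → ∃ R₀ : ℝ, 2 ≤ R₀ ∧ ∀ R : ℝ, R₀ ≤ R → ∀ S : Finset ℂ,
  (∀ z ∈ S, Hd (-b) z = 0 ∧ ‖z‖ ≤ R) →
  ∑ z ∈ S, (analyticOrderNatAt (Hd (-b)) z : ℝ) ≤ (1 / (2 * Real.pi) + ε) * R * Real.log R

/-- the number of zeros of `H_{-b}` in `|z| ≤ R` with `α log R ≤ Im z ≤ β log R` -/
def cnt (b α β R : ℝ) : ℝ :=
  ∑ᶠ z ∈ {z : ℂ | Hd (-b) z = 0 ∧ ‖z‖ ≤ R ∧ α * Real.log R ≤ z.im ∧ z.im ≤ β * Real.log R}, (analyticOrderNatAt (Hd (-b)) z : ℝ)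

/-- the number of zeros of `H_{-b}` in `|z| ≤ R` -/
def tot (b R : ℝ) : ℝ := ∑ᶠ z ∈ {z : ℂ | Hd (-b) z = 0 ∧ ‖z‖ ≤ R}, (analyticOrderNatAt (Hd (-b)) z : ℝ)

/-- (LAW) from (LOWH), (TAU): the upper bound for a strip is `tot` minus the lower bounds for the two complementary strips -/
def S_LAW : Prop := ∀ b : ℝ, 0 < b → (∀ R : ℝ, {z : ℂ | Hd (-b) z = 0 ∧ ‖z‖ ≤ R}.Finite) ∧
  Tendsto (fun R => tot b R / (R * Real.log R)) atTop (𝓝 (1 / (2 * Real.pi))) ∧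
  ∀ α β : ℝ, -(b / 2) ≤ α → α ≤ β → β ≤ b / 2 →
    Tendsto (fun R => cnt b α β R / (R * Real.log R)) atTop (𝓝 ((β - α) / b * (1 / (2 * Real.pi))))

/-! ## The jobs -/

def J_CNT : Prop := S_JN → S_KER → S_CNT
def J_AVG : Prop := S_JN → S_AVG
def J_UPP : Prop := S_UPB → S_UPP
def J_GPT : Prop := S_GOOD → S_REPR → S_REP → S_GPT
def J_FARM : Prop := S_FAR → S_UPP → S_CAV → S_AVG → S_REP → S_FARM
def J_SQ : Prop := S_UPP → S_CAV → S_AVG → S_REP → S_SQ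
def J_MASS : Prop := S_GPT → S_SQ → S_FARM → S_MASS
def J_LOW : Prop := S_CNT → S_CAV → S_UPP → S_MASS → S_FAR → S_REP → S_LOW
def J_LOWH : Prop := S_LOW → S_REP → S_LOWH
def J_CIR : Prop := S_UPH → S_CIR
def J_TAU : Prop := S_JN → S_CIR → S_LOWH → S_GRO → S_TAU
def J_LAW : Prop := S_LOWH → S_TAU → S_GRO → S_LAW

end

end Pool.Agent.J4H3.EQ
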