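import Pool.Agent.J4H1.NG.Rep
import Pool.Agent.J4H21.NG.Sh
import Pool.Agent.J4H19.NG.Repr
import Pool.Agent.J4H57.NG.Upb
import Pool.Agent.J4H31.NG.Gro
import Pool.Agent.J4H4.NG.G6
import Pool.Agent.J4H3.NG.Loc
import Pool.Agent.J4H75.NG.Ns
import Pool.Agent.J4H95.NG.Rc
import Pool.Agent.J4H95.NG.Ch
import Pool.Agent.J4H42.NG.Ms
import Pool.Agent.J4H42.NG.Mob
import Pool.Agent.J4H3.EQ.Stm

/-!
# Project EQ: what is used of project NG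
-/

set_option autoImplicit false

namespace Pool.Agent.J4H3.EQ

open Pool.Agent.J4H4.NG

theorem n_REP : S_REP := J4H1.NG.t_REP

theorem n_REPR : S_REPR := J4H19.NG.t_REPR J4H21.NG.t_SH J4H3.NG.t_LOC

theorem n_UPB : S_UPB := J4H57.NG.t_UPB n_REPR

theorem n_FAR : S_FAR := J4H57.NG.t_FAR n_REPR

theorem n_GRO : S_GRO := J4H31.NG.t_GRO

theorem n_GOOD : S_GOOD := J4H4.NG.t_G (J4H75.NG.t_NS J4H95.NG.t_RC) J4H42.NG.t_MS J4H42.NG.t_MOB J4H95.NG.t_CH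

end Pool.Agent.J4H3.EQ
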